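import Pool.Agent.Y950.CM.SPA

/-!
# MP_768c9c_nt: task SP, part 2 (host primes with multiplicity, assembly)
-/

set_option autoImplicit false

namespace Pool.Agent.Y950.CM

open Finset Filter Topology
open scoped Classical
open Pool.Agent.W76.MO Pool.Agent.W683.MO Pool.Agent.Y946.CM

/-- the part of `n` composed of the primes in `Q` -/
lemma exists_part (a : ℕ → ℝ) (Q : Finset ℕ) (ha : ∀ p, p ∉ Q → a p = 1) {n : ℕ} (hn : n ≠ 0) :
    ∃ m : ℕ, m ≠ 0 ∧ m ∣ n ∧ (∀ p : ℕ, p.Prime → p ∣ m → p ∈ Q) ∧ cm a n = cm a m := by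
  refine ind (P := fun n => ∃ m : ℕ, m ≠ 0 ∧ m ∣ n ∧ (∀ p : ℕ, p.Prime → p ∣ m → p ∈ Q) ∧
    cm a n = cm a m) ?_ ?_ hn
  · exact ⟨1, one_ne_zero, dvd_rfl, fun p hp hd => absurd (Nat.dvd_one.1 hd) hp.ne_one, rfl⟩
  · rintro p n' hp hn' ⟨m, hm0, hmn, hmQ, hmc⟩
    by_cases hpQ : p ∈ Q
    · refine ⟨p * m, mul_ne_zero hp.ne_zero hm0, Nat.mul_dvd_mul_left p hmn, ?_, ?_⟩
      · intro q hq hd
        rcases (Nat.Prime.dvd_mul hq).1 hd with h | h
        · rw [(Nat.prime_dvd_prime_iff_eq hq hp).1 h]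
          exact hpQ
        · exact hmQ q hq h
      · rw [cm_prime_mul a hp hn', cm_prime_mul a hp hm0, hmc]
    · refine ⟨m, hm0, hmn.mul_left p, hmQ, ?_⟩
      rw [cm_prime_mul a hp hn', ha p hpQ, one_mul, hmc]

/-- a divisor of the right size -/
lemma exists_div (Q : Finset ℕ) (Z y : ℝ) (hZ : 1 ≤ Z)
    (hy : ∀ q ∈ Q, (q : ℝ) ≤ y) {n : ℕ} (hn : n ≠ 0)
    (hQ : ∀ p : ℕ, p.Prime → p ∣ n → p ∈ Q) (hZn : Z < n) :
    ∃ d : ℕ, d ∣ n ∧ Z < d ∧ (d : ℝ) ≤ Z * y := by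
  revert hQ hZn
  refine ind (P := fun n => (∀ p : ℕ, p.Prime → p ∣ n → p ∈ Q) → Z < (n : ℝ) →
    ∃ d : ℕ, d ∣ n ∧ Z < d ∧ (d : ℝ) ≤ Z * y) ?_ ?_ hn
  · intro _ h
    simp only [Nat.cast_one] at h
    linarith
  · intro p m hp hm ih hQ hlt
    by_cases hmZ : Z < (m : ℝ)
    · obtain ⟨d, h1, h2, h3⟩ := ih (fun q hq hd => hQ q hq (hd.mul_left p)) hmZ
      exact ⟨d, h1.mul_left p, h2, h3⟩
    · push Not at hmZ
      refine ⟨p * m, dvd_rfl, hlt, ?_⟩
      push_cast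
      have h1 := hy p (hQ p hp (Dvd.intro m rfl))
      rw [mul_comm]
      exact mul_le_mul hmZ h1 (Nat.cast_nonneg p) (by linarith)

lemma cm_div (a : ℕ → ℝ) {n : ℕ} (hn : n ≠ 0) :
    cm (fun p => a p / (p : ℝ)) n = cm a n / n := by
  have h : (fun p : ℕ => a p / (p : ℝ)) = fun p => a p * (1 / (p : ℝ)) := by
    funext p; ring
  rw [h, cm_mul_fun, cm_inv hn]
  ring

/-- (B) -/
theorem B_cm (E : Env) (hG : E.GBounds) : ∃ J : ℕ, 1 ≤ J ∧ ∀ j : ℕ, J ≤ j → ∀ i : ℕ, j ≤ i →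
    ∀ k : ℕ, k < nc E.δ i → ∑ n ∈ cell E.δ i k,
      cm (fun p => if (p : ℝ) ≤ (2 : ℝ) ^ (1 / 20 * (i : ℝ)) then 1 + 2 * ((p : ℝ) * E.gh j p)
        else 1) n ≤ 5 * hh E.δ i := by
  have hδ := E.hδ
  have hδt := E.hδ'
  have hτ := E.hτ
  have hτ' := E.hτ'
  obtain ⟨J0, hJ0, hJ⟩ := hG
  obtain ⟨J1, hJ1⟩ := large (E.τ / 16 - 9 * E.δ) 8 0 (by linarith)
  obtain ⟨J2, hJ2⟩ := large (1 / 5 - E.δ) 2 0 (by linarith)
  refine ⟨J0 + J1 + J2 + 6, by omega, fun j hj i hij k hk => ?_⟩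
  obtain ⟨-, -, g3, -, g5, -, g7, g8, -⟩ := hJ j (by omega)
  have hjR : (6 : ℝ) ≤ j := by exact_mod_cast (by omega : 6 ≤ j)
  have hh0 := hh_posR E.δ i
  set a : ℕ → ℝ := fun p => if (p : ℝ) ≤ (2 : ℝ) ^ (1 / 20 * (i : ℝ)) then
    1 + 2 * ((p : ℝ) * E.gh j p) else 1 with ha
  have ha1 : ∀ p, 1 ≤ a p := by
    intro p
    simp only [ha]
    have h := g3 p
    have h2 : 0 ≤ (p : ℝ) * E.gh j p := mul_nonneg (Nat.cast_nonneg p) h
    split_ifs <;> linarith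
  have ha0 : ∀ p, 0 ≤ a p := fun p => by linarith [ha1 p]
  set Q : Finset ℕ := (range (2 ^ i + 1)).filter (fun q : ℕ =>
    (q : ℝ) ≤ (2 : ℝ) ^ (1 / 20 * (i : ℝ)) ∧ E.gh j q ≠ 0) with hQ
  have hQp : ∀ q ∈ Q, q.Prime := by
    intro q hq
    rw [hQ, mem_filter] at hq
    exact (g5 q hq.2.2).1.1
  have hiR : (0 : ℝ) ≤ i := by positivity
  have haQ : ∀ p, p ∉ Q → a p = 1 := by
    intro p hp
    simp only [ha]
    split_ifs with h1
    · have h2 : E.gh j p = 0 := by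
        by_contra h0
        apply hp
        rw [hQ, mem_filter, mem_range]
        refine ⟨?_, h1, h0⟩
        have h6 : (p : ℝ) ≤ 2 ^ i := by
          refine h1.trans ?_
          rw [← Real.rpow_natCast]
          apply Real.rpow_le_rpow_of_exponent_le (by norm_num)
          linarith
        have h7 : p ≤ 2 ^ i := by exact_mod_cast h6
        omega
      rw [h2]; ring
    · rfl
  have hqQ : ∀ q ∈ Q, (q : ℝ) ≤ (2 : ℝ) ^ (1 / 20 * (i : ℝ)) ∧ E.gh j q ≠ 0 := by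
    intro q hq
    rw [hQ, mem_filter] at hq
    exact hq.2
  set Z1 : ℝ := (2 : ℝ) ^ (1 / 4 * (i : ℝ)) with hZ1
  set Z2 : ℝ := (2 : ℝ) ^ (3 / 10 * (i : ℝ)) with hZ2
  set K : ℝ := 2 * (2 : ℝ) ^ (9 * E.δ * i) with hK
  have hKpos : 0 ≤ K := by positivity
  have hZ1one : 1 ≤ Z1 := Real.one_le_rpow (by norm_num) (by positivity)
  have hZ12 : Z1 ≤ Z2 := by
    apply Real.rpow_le_rpow_of_exponent_le (by norm_num)
    linarith
  set M : ℕ := 2 ^ (i + 1) with hM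
  set D1 : Finset ℕ := (Icc 2 M).filter (fun d : ℕ =>
    (∀ p : ℕ, p.Prime → p ∣ d → p ∈ Q) ∧ (d : ℝ) ≤ Z1) with hD1
  set D2 : Finset ℕ := (Icc 2 M).filter (fun d : ℕ =>
    (∀ p : ℕ, p.Prime → p ∣ d → p ∈ Q) ∧ Z1 < d ∧ (d : ℝ) ≤ Z2) with hD2
  have hc0 : ∀ n, 0 ≤ cm a n := cm_nonneg (fun p _ => ha0 p)
  -- pointwise bound
  have hpt : ∀ n ∈ cell E.δ i k, cm a n ≤
      (1 + ∑ d ∈ D1, cm a d * (if d ∣ n then 1 else 0)) +
      K * ∑ d ∈ D2, (if d ∣ n then (1 : ℝ) else 0) := by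
    intro n hn
    have hn2 := cell_sub hδ.le hk hn
    have hn0 : n ≠ 0 := by omega
    have hs1 : 0 ≤ ∑ d ∈ D1, cm a d * (if d ∣ n then (1 : ℝ) else 0) := by
      apply sum_nonneg
      intro d _
      have := hc0 d
      split_ifs <;> simp [this]
    have hs2 : 0 ≤ ∑ d ∈ D2, (if d ∣ n then (1 : ℝ) else 0) := by
      apply sum_nonneg
      intro d _
      split_ifs <;> simp
    have hs3 := mul_nonneg hKpos hs2
    obtain ⟨m, hm0, hmn, hmQ, hmc⟩ := exists_part a Q haQ hn0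
    have hmle : m ≤ n := Nat.le_of_dvd (by omega) hmn
    rcases Nat.lt_or_ge m 2 with hm2 | hm2
    · have hm1 : m = 1 := by omega
      rw [hmc, hm1, cm_one]
      linarith
    · rw [hmc]
      by_cases hmZ : (m : ℝ) ≤ Z1
      · have hmD : m ∈ D1 := by
          rw [hD1, mem_filter, mem_Icc]
          exact ⟨⟨hm2, hmle.trans hn2.2⟩, hmQ, hmZ⟩
        have h9 := single_le_sum (f := fun d : ℕ => cm a d * (if d ∣ n then (1 : ℝ) else 0))
          (s := D1) (fun d _ => by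
            have := hc0 d
            split_ifs <;> simp [this]) hmD
        simp only [if_pos hmn, mul_one] at h9
        linarith
      · push Not at hmZ
        obtain ⟨d, hd1, hd2, hd3⟩ := exists_div Q Z1 ((2 : ℝ) ^ (1 / 20 * (i : ℝ)))
          hZ1one (fun q hq => (hqQ q hq).1) hm0 hmQ hmZ
        have hdn : d ∣ n := hd1.trans hmn
        have hd2' : 2 ≤ d := by
          have h1 : (1 : ℝ) < d := lt_of_le_of_lt hZ1one hd2
          have h2 : 1 < d := by exact_mod_cast h1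
          omega
        have hdD : d ∈ D2 := by
          rw [hD2, mem_filter, mem_Icc]
          refine ⟨⟨hd2', (Nat.le_of_dvd (by omega) hdn).trans hn2.2⟩,
            fun p hp hpd => hmQ p hp (hpd.trans hd1), hd2, hd3.trans (le_of_eq ?_)⟩
          rw [hZ1, hZ2, ← Real.rpow_add (by norm_num)]
          congr 1; ring
        have h9 := single_le_sum (f := fun d : ℕ => (if d ∣ n then (1 : ℝ) else 0))
          (s := D2) (fun d _ => by split_ifs <;> simp) hdD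
        simp only [if_pos hdn] at h9
        have h10 : cm a m ≤ K := by
          have h11 : cm a m ≤ (m : ℝ) ^ (9 * E.δ) := by
            apply cm_le_rpow hm0
            intro p hp hpm
            refine ⟨ha0 p, ?_⟩
            have hpQ := hqQ p (hmQ p hp hpm)
            simp only [ha]
            rw [if_pos hpQ.1]
            exact (g7 p hpQ.2).2
          refine h11.trans ?_
          have hmR : (m : ℝ) ≤ (2 : ℝ) ^ ((i : ℝ) + 1) := by
            have : (m : ℝ) ≤ 2 ^ (i + 1) := by exact_mod_cast hmle.trans hn2.2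
            rw [← Real.rpow_natCast] at this
            push_cast at this
            exact this
          calc (m : ℝ) ^ (9 * E.δ) ≤ ((2 : ℝ) ^ ((i : ℝ) + 1)) ^ (9 * E.δ) :=
                Real.rpow_le_rpow (by positivity) hmR (by linarith)
            _ = (2 : ℝ) ^ (((i : ℝ) + 1) * (9 * E.δ)) := by rw [← Real.rpow_mul (by norm_num)]
            _ ≤ (2 : ℝ) ^ (1 + 9 * E.δ * i) := by
                apply Real.rpow_le_rpow_of_exponent_le (by norm_num)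
                nlinarith
            _ = K := by rw [hK, Real.rpow_add (by norm_num), Real.rpow_one]
        have h12 : K * 1 ≤ K * ∑ d ∈ D2, (if d ∣ n then (1 : ℝ) else 0) :=
          mul_le_mul_of_nonneg_left h9 hKpos
        linarith
  refine (sum_le_sum hpt).trans ?_
  rw [sum_add_distrib, sum_add_distrib, ← mul_sum, sum_comm (s := cell E.δ i k) (t := D1),
    sum_comm (s := cell E.δ i k) (t := D2), sum_const, card_cell, nsmul_eq_mul, mul_one]
  -- counting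
  have hZ2h : Z2 ≤ hh E.δ i := by
    have h1 := hJ2 i (by omega)
    rw [pow_zero, mul_one] at h1
    have h2 := lt_hh (δ := E.δ) i
    have h3 : Z2 * (2 : ℝ) ^ ((1 / 5 - E.δ) * i) = (2 : ℝ) ^ ((1 / 2 - E.δ) * i) := by
      rw [hZ2, ← Real.rpow_add (by norm_num)]
      congr 1; ring
    have h4 : (0 : ℝ) < Z2 := by positivity
    nlinarith
  have hcount : ∀ d : ℕ, 2 ≤ d → (d : ℝ) ≤ Z2 →
      ∑ n ∈ cell E.δ i k, (if d ∣ n then (1 : ℝ) else 0) ≤ 2 * hh E.δ i / (d : ℝ) := by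
    intro d hd hle
    have hposR : (0 : ℝ) < (d : ℝ) := by exact_mod_cast (by omega : 0 < d)
    rw [sum_boole]
    have h1 := card_mult (2 ^ i + k * hh E.δ i) (hh E.δ i) d (by omega)
    have h2 : cell E.δ i k = Ioc (2 ^ i + k * hh E.δ i) (2 ^ i + k * hh E.δ i + hh E.δ i) := by
      unfold cell
      congr 1; ring
    rw [h2]
    refine h1.trans ?_
    have h3 : (1 : ℝ) ≤ hh E.δ i / (d : ℝ) := by
      rw [le_div_iff₀ hposR, one_mul]
      exact hle.trans hZ2h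
    have h4 : 2 * (hh E.δ i : ℝ) / (d : ℝ) = hh E.δ i / (d : ℝ) + hh E.δ i / (d : ℝ) := by ring
    rw [h4]
    linarith
  have g8Q := g8 Q
  have hqpos : ∀ q ∈ Q, (1 : ℝ) ≤ q := fun q hq => by exact_mod_cast (hQp q hq).one_lt.le
  -- first sum
  have hS1 : ∑ d ∈ D1, ∑ n ∈ cell E.δ i k, cm a d * (if d ∣ n then (1 : ℝ) else 0) ≤
      2 * hh E.δ i := by
    have h1 : ∀ d ∈ D1, ∑ n ∈ cell E.δ i k, cm a d * (if d ∣ n then (1 : ℝ) else 0) ≤
        2 * hh E.δ i * cm (fun p => a p / (p : ℝ)) d := by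
      intro d hd
      rw [hD1, mem_filter, mem_Icc] at hd
      rw [← mul_sum]
      have h2 := hcount d hd.1.1 (hd.2.2.trans hZ12)
      refine (mul_le_mul_of_nonneg_left h2 (hc0 d)).trans (le_of_eq ?_)
      rw [cm_div a (by omega)]
      ring
    refine (sum_le_sum h1).trans ?_
    rw [← mul_sum]
    have h6 : ∑ q ∈ Q, a q / q ≤ 3 / j := by
      have h7 : ∀ q ∈ Q, a q / q ≤ 3 * ((q * E.gh j q) * (q : ℝ) ^ (-1 + E.τ / 4)) := by
        intro q hq
        have h8 := hqpos q hq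
        have h9 : (q : ℝ) ^ (-1 + E.τ / 4) ≥ (q : ℝ)⁻¹ := by
          rw [← Real.rpow_neg_one]
          apply Real.rpow_le_rpow_of_exponent_le h8
          linarith
        have h10 : 1 ≤ (q : ℝ) * E.gh j q := (g5 q (hqQ q hq).2).2.2
        simp only [ha]
        rw [if_pos (hqQ q hq).1, div_eq_mul_inv]
        have h11 : 0 < (q : ℝ)⁻¹ := by positivity
        calc (1 + 2 * ((q : ℝ) * E.gh j q)) * (q : ℝ)⁻¹ ≤ (3 * ((q : ℝ) * E.gh j q)) * (q : ℝ)⁻¹ :=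
              mul_le_mul_of_nonneg_right (by linarith) h11.le
          _ ≤ (3 * ((q : ℝ) * E.gh j q)) * (q : ℝ) ^ (-1 + E.τ / 4) :=
              mul_le_mul_of_nonneg_left h9 (by linarith)
          _ = _ := by ring
      refine (sum_le_sum h7).trans ?_
      rw [← mul_sum]
      have h11 : (3 : ℝ) / j = 3 * (1 / j) := by ring
      rw [h11]
      exact mul_le_mul_of_nonneg_left g8Q (by norm_num)
    have h3j : (3 : ℝ) / j ≤ 1 / 2 := by
      rw [div_le_div_iff₀ (by linarith) (by norm_num)]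
      linarith
    have h12 := euler (fun p => a p / (p : ℝ)) (fun p _ => div_nonneg (ha0 p) (Nat.cast_nonneg p))
      Q hQp (3 / j) h6 h3j D1 (by
        intro d hd
        rw [hD1, mem_filter, mem_Icc] at hd
        exact ⟨hd.1.1, hd.2.1⟩)
    have h13 : ∑ d ∈ D1, cm (fun p => a p / (p : ℝ)) d ≤ 1 := by linarith
    nlinarith
  -- second sum
  have hS2 : K * ∑ d ∈ D2, ∑ n ∈ cell E.δ i k, (if d ∣ n then (1 : ℝ) else 0) ≤ hh E.δ i := by
    have h1 : ∀ d ∈ D2, ∑ n ∈ cell E.δ i k, (if d ∣ n then (1 : ℝ) else 0) ≤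
        2 * hh E.δ i * (2 : ℝ) ^ (-(E.τ / 16) * (i : ℝ)) *
          cm (fun p => (p : ℝ) ^ (-1 + E.τ / 4)) d := by
      intro d hd
      rw [hD2, mem_filter, mem_Icc] at hd
      obtain ⟨⟨hd1, -⟩, -, hs2, hs3⟩ := hd
      refine (hcount d hd1 hs3).trans ?_
      rw [cm_rpow _ (by omega)]
      have hZpos : (0 : ℝ) < Z1 := by positivity
      have hdpos : (0 : ℝ) < d := hZpos.trans hs2
      have h2 : (d : ℝ) ^ (-1 + E.τ / 4) = (d : ℝ)⁻¹ * (d : ℝ) ^ (E.τ / 4) := by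
        rw [Real.rpow_add hdpos, Real.rpow_neg_one]
      have h3 : (2 : ℝ) ^ (E.τ / 16 * (i : ℝ)) ≤ (d : ℝ) ^ (E.τ / 4) := by
        have h4 : (2 : ℝ) ^ (E.τ / 16 * (i : ℝ)) = Z1 ^ (E.τ / 4) := by
          rw [hZ1, ← Real.rpow_mul (by norm_num)]
          congr 1; ring
        rw [h4]
        exact Real.rpow_le_rpow hZpos.le hs2.le (by linarith)
      have h5 : (2 : ℝ) ^ (-(E.τ / 16) * (i : ℝ)) * (2 : ℝ) ^ (E.τ / 16 * (i : ℝ)) = 1 := by
        rw [← Real.rpow_add (by norm_num)]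
        rw [show -(E.τ / 16) * (i : ℝ) + E.τ / 16 * (i : ℝ) = 0 by ring, Real.rpow_zero]
      rw [h2]
      have h6 : 2 * (hh E.δ i : ℝ) / d = 2 * hh E.δ i * (d : ℝ)⁻¹ *
          ((2 : ℝ) ^ (-(E.τ / 16) * (i : ℝ)) * (2 : ℝ) ^ (E.τ / 16 * (i : ℝ))) := by
        rw [h5]; ring
      rw [h6]
      have h7 : 2 * (hh E.δ i : ℝ) * (d : ℝ)⁻¹ *
          ((2 : ℝ) ^ (-(E.τ / 16) * (i : ℝ)) * (2 : ℝ) ^ (E.τ / 16 * (i : ℝ))) ≤
          2 * (hh E.δ i : ℝ) * (d : ℝ)⁻¹ *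
          ((2 : ℝ) ^ (-(E.τ / 16) * (i : ℝ)) * (d : ℝ) ^ (E.τ / 4)) := by
        apply mul_le_mul_of_nonneg_left _ (by positivity)
        exact mul_le_mul_of_nonneg_left h3 (by positivity)
      refine h7.trans (le_of_eq ?_)
      ring
    have h2 : ∑ d ∈ D2, ∑ n ∈ cell E.δ i k, (if d ∣ n then (1 : ℝ) else 0) ≤
        2 * hh E.δ i * (2 : ℝ) ^ (-(E.τ / 16) * (i : ℝ)) * 2 := by
      refine (sum_le_sum h1).trans ?_
      rw [← mul_sum]
      apply mul_le_mul_of_nonneg_left _ (by positivity)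
      have h6 : ∑ q ∈ Q, (q : ℝ) ^ (-1 + E.τ / 4) ≤ 1 / j := by
        refine le_trans (sum_le_sum ?_) g8Q
        intro q hq
        have h7 := (g5 q (hqQ q hq).2).2.2
        have h8 : 0 ≤ (q : ℝ) ^ (-1 + E.τ / 4) := by positivity
        nlinarith
      have h1j : (1 : ℝ) / j ≤ 1 / 2 := by
        rw [div_le_div_iff₀ (by linarith) (by norm_num)]
        linarith
      have h12 := euler (fun p : ℕ => (p : ℝ) ^ (-1 + E.τ / 4)) (fun p _ => by positivity)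
        Q hQp (1 / j) h6 h1j D2 (by
          intro d hd
          rw [hD2, mem_filter, mem_Icc] at hd
          exact ⟨hd.1.1, hd.2.1⟩)
      linarith
    have hbig := hJ1 i (by omega)
    rw [pow_zero, mul_one] at hbig
    have h3 : (2 : ℝ) ^ (9 * E.δ * i) * (2 : ℝ) ^ ((E.τ / 16 - 9 * E.δ) * i) *
        (2 : ℝ) ^ (-(E.τ / 16) * (i : ℝ)) = 1 := by
      rw [← Real.rpow_add (by norm_num), ← Real.rpow_add (by norm_num)]
      rw [show 9 * E.δ * i + (E.τ / 16 - 9 * E.δ) * i + -(E.τ / 16) * (i : ℝ) = 0 by ring,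
        Real.rpow_zero]
    refine (mul_le_mul_of_nonneg_left h2 hKpos).trans ?_
    rw [hK]
    have h4 : 2 * (2 : ℝ) ^ (9 * E.δ * i) * (2 * hh E.δ i * (2 : ℝ) ^ (-(E.τ / 16) * (i : ℝ)) * 2)
        = hh E.δ i * ((2 : ℝ) ^ (9 * E.δ * i) * 8 * (2 : ℝ) ^ (-(E.τ / 16) * (i : ℝ))) := by ring
    rw [h4]
    have h5 : (2 : ℝ) ^ (9 * E.δ * i) * 8 * (2 : ℝ) ^ (-(E.τ / 16) * (i : ℝ)) ≤ 1 := by
      rw [← h3]
      apply mul_le_mul_of_nonneg_right _ (by positivity)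
      exact mul_le_mul_of_nonneg_left hbig (by positivity)
    nlinarith
  linarith

/-- task SP -/
theorem sp : Pool.Agent.Y946.CM.T_SP := by
  intro E hG η hη
  obtain ⟨JA, -, hA⟩ := A_cm E hG
  obtain ⟨JB, -, hB⟩ := B_cm E hG
  obtain ⟨J3, hJ3⟩ := exists_nat_ge (5 / η)
  refine ⟨JA + JB + J3 + 3, fun j hj i hij k hk => ?_⟩
  have hA' := hA j (by omega) i hij
  have hB' := hB j (by omega) i hij k hk
  have hδ := E.hδ
  have hiR : (3 : ℝ) ≤ i := by exact_mod_cast (by omega : 3 ≤ i)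
  have hgu := gu_nonneg E j
  have hgh := gh_nonneg E j
  set a : ℝ := (2 : ℝ) ^ (E.δ / 2 * i) / (i : ℝ) ^ 50 with ha
  have hapos : 0 < a := by positivity
  set fA : ℕ → ℝ := fun p => if (p : ℝ) ≤ (2 : ℝ) ^ (3 / 5 * (i : ℝ)) then
    1 + 2 * ((p : ℝ) * E.gu j p) else 1 with hfA
  set fB : ℕ → ℝ := fun p => if (p : ℝ) ≤ (2 : ℝ) ^ (1 / 20 * (i : ℝ)) then
    1 + 2 * ((p : ℝ) * E.gh j p) else 1 with hfB
  have hfB0 : ∀ n, 0 ≤ cm fB n := by
    apply cm_nonneg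
    intro p _
    simp only [hfB]
    have h3 := hgh p
    split_ifs <;> positivity
  have h1 : ∀ n ∈ cell E.δ i k,
      (1 / (n : ℝ)) * cm (fun p => 1 + 2 * (p * E.gs j i p)) n ≤
        (1 / 2 ^ i * a) * cm fB n := by
    intro n hn
    have hn2 := cell_sub hδ.le hk hn
    have hnR : (2 : ℝ) ^ i ≤ n := by exact_mod_cast hn2.1.le
    have h2 : cm (fun p => 1 + 2 * (p * E.gs j i p)) n ≤ cm fA n * cm fB n := by
      rw [← cm_mul_fun]
      apply cm_le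
      intro p _
      unfold Env.gs
      simp only [hfA, hfB]
      have h3 : 0 ≤ (p : ℝ) * E.gu j p := mul_nonneg (Nat.cast_nonneg p) (hgu p)
      have h4 : 0 ≤ (p : ℝ) * E.gh j p := mul_nonneg (Nat.cast_nonneg p) (hgh p)
      constructor
      · have h5 := hgu p
        have h6 := hgh p
        split_ifs <;> positivity
      · split_ifs
        · nlinarith [mul_nonneg h3 h4]
        · nlinarith
        · nlinarith
        · nlinarith
    have h5 := hA' n (by omega) hn2.2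
    have h6 : cm (fun p => 1 + 2 * (p * E.gs j i p)) n ≤ a * cm fB n :=
      h2.trans (mul_le_mul_of_nonneg_right h5 (hfB0 n))
    have h7 : 1 / (n : ℝ) ≤ 1 / 2 ^ i := one_div_le_one_div_of_le (by positivity) hnR
    calc (1 / (n : ℝ)) * cm (fun p => 1 + 2 * (p * E.gs j i p)) n ≤
        (1 / (n : ℝ)) * (a * cm fB n) :=
          mul_le_mul_of_nonneg_left h6 (by positivity)
      _ ≤ (1 / 2 ^ i) * (a * cm fB n) :=
          mul_le_mul_of_nonneg_right h7 (mul_nonneg hapos.le (hfB0 n))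
      _ = _ := by ring
  refine (sum_le_sum h1).trans ?_
  rw [← mul_sum]
  have h3 : (1 / 2 ^ i * a) * ∑ n ∈ cell E.δ i k, cm fB n ≤ (1 / 2 ^ i * a) * (5 * hh E.δ i) :=
    mul_le_mul_of_nonneg_left hB' (by positivity)
  refine h3.trans ?_
  have h4 := hh_le (δ_half E) i
  have h5 : (1 / 2 ^ i * a) * (5 * hh E.δ i) ≤
      (1 / 2 ^ i * a) * (5 * (2 : ℝ) ^ ((1 / 2 - E.δ) * i)) := by
    apply mul_le_mul_of_nonneg_left _ (by positivity)
    linarith
  refine h5.trans ?_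
  have h6 : (1 / 2 ^ i * a) * (5 * (2 : ℝ) ^ ((1 / 2 - E.δ) * i)) = 5 / (i : ℝ) ^ 10 * E.w i := by
    unfold Env.w
    have e1 : (2 : ℝ) ^ (-(1 / 2 + E.δ / 2) * (i : ℝ)) * (2 : ℝ) ^ i =
      (2 : ℝ) ^ ((1 / 2 - E.δ) * i) * (2 : ℝ) ^ (E.δ / 2 * i) := exp_id1 E i
    rw [ha]
    have e2 : (1 / 2 ^ i * ((2 : ℝ) ^ (E.δ / 2 * i) / (i : ℝ) ^ 50)) *
        (5 * (2 : ℝ) ^ ((1 / 2 - E.δ) * i)) = 5 / (i : ℝ) ^ 50 *
        (((2 : ℝ) ^ ((1 / 2 - E.δ) * i) * (2 : ℝ) ^ (E.δ / 2 * i)) / 2 ^ i) := by ring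
    rw [e2, ← e1]
    field_simp
  rw [h6]
  have h7 : 5 / (i : ℝ) ^ 10 ≤ η := by
    have hi5 : 5 / η ≤ (i : ℝ) := by
      refine hJ3.trans ?_
      exact_mod_cast (by omega : J3 ≤ i)
    rw [div_le_iff₀ hη] at hi5
    rw [div_le_iff₀ (by positivity)]
    have h8 : (i : ℝ) ≤ (i : ℝ) ^ 10 := le_self_pow₀ (by linarith) (by norm_num)
    nlinarith
  exact mul_le_mul_of_nonneg_right h7 (w_nonneg E i)

end Pool.Agent.Y950.CM
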