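import Pool.Agent.W683.MO.SP
import Pool.Agent.Y946.CM.Defs

/-!
# MP_768c9c_nt: task SP, part 1 (control primes of the first kind, with multiplicity)
-/

set_option autoImplicit false

namespace Pool.Agent.Y950.CM

open Finset Filter Topology
open scoped Classical
open Pool.Agent.W76.MO Pool.Agent.W683.MO Pool.Agent.Y946.CM

lemma prod_map_filter (P : ℕ → Prop) (a : ℕ → ℝ) (L : List ℕ)
    (h : ∀ x ∈ L, ¬ P x → a x = 1) :
    (L.map a).prod = ((L.filter (fun x => decide (P x))).map a).prod := by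
  induction L with
  | nil => simp
  | cons x L ih =>
    have ih' := ih (fun y hy => h y (List.mem_cons_of_mem x hy))
    by_cases hx : P x
    · rw [List.filter_cons_of_pos (by simpa using hx), List.map_cons, List.map_cons,
        List.prod_cons, List.prod_cons, ih']
    · rw [List.filter_cons_of_neg (by simpa using hx), List.map_cons, List.prod_cons,
        h x List.mem_cons_self hx, one_mul, ih']

/-- (A) for a list of control primes -/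
theorem A_list (E : Env) (hG : E.GBounds) : ∃ J : ℕ, 1 ≤ J ∧ ∀ j : ℕ, J ≤ j → ∀ i : ℕ, j ≤ i →
    ∀ L : List ℕ, (∀ p ∈ L, E.U j p ∧ (p : ℝ) ≤ (2 : ℝ) ^ (3 / 5 * (i : ℝ))) →
      L.prod ≤ 2 ^ (i + 1) →
      (L.map (fun p : ℕ => 1 + 2 * ((p : ℝ) * E.gu j p))).prod ≤
        (2 : ℝ) ^ (E.δ / 2 * i) / (i : ℝ) ^ 50 := by
  have hδ := E.hδ
  have hδ1 : E.δ ≤ 1 := by have := E.hδ'; have := E.hτ'; linarith
  obtain ⟨J0, hJ0, hJ⟩ := hG
  obtain ⟨J1, hJ1⟩ := large (E.δ / 50) 1 50 (by linarith)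
  refine ⟨J0 + J1 + 1003, by omega, fun j hj i hij L hL hprod0 => ?_⟩
  obtain ⟨-, -, -, g4, -, g6, -, -, -⟩ := hJ j (by omega)
  set F : Finset (Fin L.length) := Finset.univ with hF
  set s : Fin L.length → ℕ := fun t => Env.sc (L.get t) with hs
  have hmem : ∀ t : Fin L.length, L.get t ∈ L := fun t => List.get_mem L t
  have hsc : ∀ t ∈ F, 2 ^ s t < L.get t := by
    intro t _
    exact (sc_spec (E.u_prime _ (hL _ (hmem t)).1.1).two_le).1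
  have ha2 : ∀ t ∈ F, 2 ≤ s t := by
    intro t _
    have := (g6 _ (hL _ (hmem t)).1).1
    simp only [hs]
    omega
  have ha6 : ∀ t ∈ F, 10 * s t ≤ 6 * i := by
    intro t ht
    have h1 : (2 : ℝ) ^ ((s t : ℕ) : ℝ) < (2 : ℝ) ^ (3 / 5 * (i : ℝ)) := by
      rw [Real.rpow_natCast]
      refine lt_of_lt_of_le ?_ (hL _ (hmem t)).2
      exact_mod_cast hsc t ht
    have h2 := (Real.rpow_lt_rpow_left_iff (by norm_num)).1 h1
    have h3 : (10 * s t : ℝ) ≤ 6 * i := by linarith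
    exact_mod_cast h3
  have hprodL : ∏ t ∈ F, L.get t = L.prod := by
    simp [hF]
  have hSum : ∑ t ∈ F, s t ≤ i + 1 := by
    have h1 : ∏ t ∈ F, 2 ^ s t ≤ ∏ t ∈ F, L.get t :=
      prod_le_prod' (fun p hp => (hsc p hp).le)
    rw [prod_pow_eq_pow_sum] at h1
    have h4 : 2 ^ (∑ t ∈ F, s t) ≤ 2 ^ (i + 1) := by
      refine h1.trans ?_
      rw [hprodL]
      exact hprod0
    exact (Nat.pow_le_pow_iff_right (by norm_num)).1 h4
  have hprod : (L.map (fun p : ℕ => 1 + 2 * ((p : ℝ) * E.gu j p))).prod ≤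
      (2 : ℝ) ^ (E.δ / 2 * ((∑ t ∈ F, s t : ℕ) : ℝ)) /
        ((∏ t ∈ F, s t : ℕ) : ℝ) ^ 35 := by
    have h0 : (L.map (fun p : ℕ => 1 + 2 * ((p : ℝ) * E.gu j p))).prod =
        ∏ t ∈ F, (1 + 2 * (((L.get t : ℕ) : ℝ) * E.gu j (L.get t))) := by
      have := Fin.prod_univ_fun_getElem L (fun p : ℕ => 1 + 2 * ((p : ℝ) * E.gu j p))
      simpa [hF] using this.symm
    have h1 : ∏ t ∈ F, (1 + 2 * (((L.get t : ℕ) : ℝ) * E.gu j (L.get t))) ≤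
        ∏ t ∈ F, ((2 : ℝ) ^ (E.δ / 2 * s t) / (s t : ℝ) ^ 35) := by
      apply Finset.prod_le_prod
      · intro t _
        have := gu_nonneg E j (L.get t)
        positivity
      · intro t _
        exact (g6 _ (hL _ (hmem t)).1).2
    rw [h0]
    refine h1.trans (le_of_eq ?_)
    rw [prod_div_distrib]
    congr 1
    · rw [← Real.rpow_sum_of_pos (by norm_num)]
      congr 1
      push_cast
      rw [mul_sum]
    · push_cast
      rw [prod_pow]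
  refine hprod.trans ?_
  have hiR : (1000 : ℝ) ≤ i := by exact_mod_cast (by omega : 1000 ≤ i)
  have hPpos : 1 ≤ ∏ t ∈ F, s t := by
    apply Nat.one_le_iff_ne_zero.2
    rw [prod_ne_zero_iff]
    intro t ht
    have := ha2 t ht
    omega
  have hPR : (1 : ℝ) ≤ ((∏ t ∈ F, s t : ℕ) : ℝ) := by exact_mod_cast hPpos
  by_cases hc : 25 * ∑ t ∈ F, s t ≤ 24 * i
  · have hbig := hJ1 i (by omega)
    rw [one_mul] at hbig
    have hc' : (25 : ℝ) * ((∑ t ∈ F, s t : ℕ) : ℝ) ≤ 24 * i := by exact_mod_cast hc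
    rw [div_le_div_iff₀ (by positivity) (by positivity)]
    have h1 : (2 : ℝ) ^ (E.δ / 2 * ((∑ t ∈ F, s t : ℕ) : ℝ)) * (i : ℝ) ^ 50 ≤
        (2 : ℝ) ^ (E.δ / 2 * ((∑ t ∈ F, s t : ℕ) : ℝ)) * (2 : ℝ) ^ (E.δ / 50 * i) :=
      mul_le_mul_of_nonneg_left hbig (by positivity)
    have h2 : (2 : ℝ) ^ (E.δ / 2 * ((∑ t ∈ F, s t : ℕ) : ℝ)) * (2 : ℝ) ^ (E.δ / 50 * i) ≤
        (2 : ℝ) ^ (E.δ / 2 * i) := by
      rw [← Real.rpow_add (by norm_num)]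
      apply Real.rpow_le_rpow_of_exponent_le (by norm_num)
      nlinarith
    have h3 : (1 : ℝ) ≤ ((∏ t ∈ F, s t : ℕ) : ℝ) ^ 35 := one_le_pow₀ hPR
    have h4 : (0 : ℝ) < (2 : ℝ) ^ (E.δ / 2 * i) := by positivity
    nlinarith
  · push Not at hc
    have h1 := prod_large F s i (by omega) ha2 ha6 hc
    have h1R : (i : ℝ) ^ 2 ≤ 10 * ((∏ t ∈ F, s t : ℕ) : ℝ) := by exact_mod_cast h1
    have h2 : ((i : ℝ) ^ 2) ^ 35 ≤ (10 * ((∏ t ∈ F, s t : ℕ) : ℝ)) ^ 35 :=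
      pow_le_pow_left₀ (by positivity) h1R 35
    have h3 : (1000 : ℝ) ^ 20 ≤ (i : ℝ) ^ 20 := pow_le_pow_left₀ (by norm_num) hiR 20
    have h4 : 2 * (i : ℝ) ^ 50 ≤ ((∏ t ∈ F, s t : ℕ) : ℝ) ^ 35 := by
      have e2 : (10 * ((∏ t ∈ F, s t : ℕ) : ℝ)) ^ 35 =
          10 ^ 35 * ((∏ t ∈ F, s t : ℕ) : ℝ) ^ 35 := by rw [mul_pow]
      have e3 : ((i : ℝ) ^ 2) ^ 35 = (i : ℝ) ^ 20 * (i : ℝ) ^ 50 := by ring
      rw [e2, e3] at h2
      have e4 : (1000 : ℝ) ^ 20 * (i : ℝ) ^ 50 ≤ (i : ℝ) ^ 20 * (i : ℝ) ^ 50 :=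
        mul_le_mul_of_nonneg_right h3 (by positivity)
      have e5 : (10 : ℝ) ^ 35 * (2 * (i : ℝ) ^ 50) ≤ (1000 : ℝ) ^ 20 * (i : ℝ) ^ 50 := by
        have : (0 : ℝ) ≤ (i : ℝ) ^ 50 := by positivity
        nlinarith
      have e6 : (10 : ℝ) ^ 35 * (2 * (i : ℝ) ^ 50) ≤
          10 ^ 35 * ((∏ t ∈ F, s t : ℕ) : ℝ) ^ 35 := by linarith
      exact le_of_mul_le_mul_left e6 (by positivity)
    rw [div_le_div_iff₀ (by positivity) (by positivity)]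
    have h5 : (2 : ℝ) ^ (E.δ / 2 * ((∑ t ∈ F, s t : ℕ) : ℝ)) ≤
        2 * (2 : ℝ) ^ (E.δ / 2 * i) := by
      have e1 : ((∑ t ∈ F, s t : ℕ) : ℝ) ≤ i + 1 := by exact_mod_cast hSum
      calc (2 : ℝ) ^ (E.δ / 2 * ((∑ t ∈ F, s t : ℕ) : ℝ)) ≤
          (2 : ℝ) ^ (1 + E.δ / 2 * i) := by
            apply Real.rpow_le_rpow_of_exponent_le (by norm_num)
            nlinarith
        _ = _ := by rw [Real.rpow_add (by norm_num), Real.rpow_one]
    calc (2 : ℝ) ^ (E.δ / 2 * ((∑ t ∈ F, s t : ℕ) : ℝ)) * (i : ℝ) ^ 50 ≤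
        (2 * (2 : ℝ) ^ (E.δ / 2 * i)) * (i : ℝ) ^ 50 :=
          mul_le_mul_of_nonneg_right h5 (by positivity)
      _ = (2 : ℝ) ^ (E.δ / 2 * i) * (2 * (i : ℝ) ^ 50) := by ring
      _ ≤ _ := mul_le_mul_of_nonneg_left h4 (by positivity)

/-- (A) -/
theorem A_cm (E : Env) (hG : E.GBounds) : ∃ J : ℕ, 1 ≤ J ∧ ∀ j : ℕ, J ≤ j → ∀ i : ℕ, j ≤ i →
    ∀ n : ℕ, 1 ≤ n → n ≤ 2 ^ (i + 1) →
      cm (fun p => if (p : ℝ) ≤ (2 : ℝ) ^ (3 / 5 * (i : ℝ)) then 1 + 2 * ((p : ℝ) * E.gu j p)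
        else 1) n ≤ (2 : ℝ) ^ (E.δ / 2 * i) / (i : ℝ) ^ 50 := by
  obtain ⟨J, hJ, h⟩ := A_list E hG
  obtain ⟨J0, hJ0, hJ'⟩ := hG
  refine ⟨J + J0, by omega, fun j hj i hij n hn1 hn => ?_⟩
  obtain ⟨-, -, -, g4, -, -, -, -, -⟩ := hJ' j (by omega)
  have h' := h j (by omega) i hij
  unfold cm
  obtain ⟨P, hP⟩ : ∃ P : ℕ → Prop, ∀ p : ℕ, P p ↔
      (E.U j p ∧ (p : ℝ) ≤ (2 : ℝ) ^ (3 / 5 * (i : ℝ))) := ⟨_, fun _ => Iff.rfl⟩
  rw [prod_map_filter P]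
  · set L := n.primeFactorsList.filter (fun p => decide (P p)) with hL
    have hLm : ∀ p ∈ L, E.U j p ∧ (p : ℝ) ≤ (2 : ℝ) ^ (3 / 5 * (i : ℝ)) := by
      intro p hp
      rw [hL, List.mem_filter] at hp
      exact (hP p).1 (by simpa using hp.2)
    have h2 : L.map (fun p : ℕ => if (p : ℝ) ≤ (2 : ℝ) ^ (3 / 5 * (i : ℝ)) then
        1 + 2 * ((p : ℝ) * E.gu j p) else 1) = L.map (fun p : ℕ => 1 + 2 * ((p : ℝ) * E.gu j p)) := by
      apply List.map_congr_left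
      intro p hp
      rw [if_pos (hLm p hp).2]
    rw [h2]
    apply h' L hLm
    have h3 : L.prod ∣ n.primeFactorsList.prod :=
      List.Sublist.prod_dvd_prod List.filter_sublist
    rw [Nat.prod_primeFactorsList (by omega)] at h3
    exact (Nat.le_of_dvd (by omega) h3).trans hn
  · intro p _ hp
    split_ifs with h1
    · have h2 : E.gu j p = 0 := by
        by_contra h0
        exact hp ((hP p).2 ⟨g4 p h0, h1⟩)
      rw [h2]; ring
    · rfl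

end Pool.Agent.Y950.CM
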